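import Mathlib

set_option autoImplicit false

namespace Pool.Agent.Results.MP_e25d14_pr.Counter

open Finset

/-- `P_x(τ(y) = t)`: the total probability of the paths `x = γ 0, γ 1, …, γ t = y` that avoid `y`
before time `t` -/
noncomputable def hit {S : Type} [Fintype S] [DecidableEq S] (P : S → S → ℝ) (x y : S) (t : ℕ) : ℝ :=
  ∑ γ : Fin (t + 1) → S with γ 0 = x ∧ γ (Fin.last t) = y ∧ ∀ i : Fin t, γ i.castSucc ≠ y,
    ∏ i : Fin t, P (γ i.castSucc) (γ i.succ)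

theorem result (C : ℝ) : ∃ (N : ℕ) (P : Fin N → Fin N → ℝ) (π : Fin N → ℝ),
    (∀ u v, 0 < P u v) ∧ (∀ u, ∑ v, P u v = 1) ∧ (∀ u, 0 < π u) ∧ ∑ u, π u = 1 ∧
    (∀ v, ∑ u, π u * P u v = π v) ∧ (∀ u v, π u * P u v = π v * P v u) ∧
    ∃ (x y : Fin N) (t : ℕ), 1 ≤ t ∧ C / t * √(max 1 (Real.log (1 / π x))) < hit P x y t := by
  obtain ⟨k, hk⟩ := exists_nat_gt (max 2 (100 * C ^ 2))
  rw [max_lt_iff] at hk
  obtain ⟨n, hn⟩ : ∃ n : ℕ, (n : ℝ) + 1 = k ^ 2 := ⟨k ^ 2 - 1, by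
    rw [Nat.cast_sub (Nat.one_le_pow _ _ (by exact_mod_cast (show (0 : ℝ) < k by linarith)))]; simp⟩
  have n3 : (3 : ℝ) ≤ n := by nlinarith
  set M : ℝ := (n + 1) ^ 3 with hM
  have M1 : 2 * (n : ℝ) ^ 2 + 1 ≤ M := by nlinarith [sq_nonneg (n : ℝ)]
  have M2 : 1 ≤ M := by nlinarith [sq_nonneg (n : ℝ)]
  obtain ⟨c, hc⟩ : ∃ c : Fin (n + 1) → Fin (n + 1) → ℝ, ∀ u v, c u v =
    M ^ (if (u : ℕ) + 1 = v ∨ (v : ℕ) + 1 = u then max (u : ℕ) v else 0) := ⟨_, fun _ _ => rfl⟩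
  have c1 : ∀ u v, 1 ≤ c u v := fun u v => hc u v ▸ one_le_pow₀ M2
  have c0 : ∀ u v, 0 < c u v := fun u v => one_pos.trans_le (c1 u v)
  have cs : ∀ u v, c u v = c v u := fun u v => by simp only [hc, or_comm, max_comm]
  have r0 : ∀ u, 0 < ∑ v, c u v := fun u => sum_pos (fun v _ => c0 u v) univ_nonempty
  have Z0 : 0 < ∑ u, ∑ v, c u v := sum_pos (fun v _ => r0 v) univ_nonempty
  have db : ∀ u v, (∑ w, c u w) / (∑ u, ∑ v, c u v) * (c u v / ∑ w, c u w) =
      c u v / ∑ u, ∑ v, c u v := fun u v => by have := r0 u; field_simp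
  refine ⟨n + 1, fun u v => c u v / ∑ w, c u w, fun u => (∑ w, c u w) / ∑ u, ∑ v, c u v,
    fun u v => div_pos (c0 u v) (r0 u), fun u => by rw [← sum_div, div_self (r0 u).ne'],
    fun u => div_pos (r0 u) Z0, by rw [← sum_div, div_self Z0.ne'],
    fun v => by simp only [db, ← sum_div, cs v], fun u v => by rw [db, db, cs], 0, Fin.last n, n,
    by exact_mod_cast (show (1 : ℝ) ≤ n by linarith), ?_⟩
  have h1 : ∀ i : Fin n, 1 - n / M ≤ c i.castSucc i.succ / ∑ w, c i.castSucc w := fun i => by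
    have e : c i.castSucc i.succ = M * M ^ (i : ℕ) := by simp [hc, pow_succ']
    have : ∑ w ∈ univ.erase i.succ, c i.castSucc w ≤ n * M ^ (i : ℕ) := by
      refine (sum_le_card_nsmul _ _ (M ^ (i : ℕ)) fun w hw => ?_).trans (by simp)
      have := Fin.val_ne_of_ne (ne_of_mem_erase hw)
      rw [hc]
      refine pow_le_pow_right₀ M2 ?_
      simp only [Fin.val_castSucc, Fin.val_succ] at *
      split_ifs <;> omega
    have h0 : 0 ≤ 1 - n / M := by rw [sub_nonneg, div_le_one (by linarith)]; nlinarith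
    rw [le_div_iff₀ (r0 _), ← add_sum_erase _ _ (mem_univ i.succ), e]
    calc _ ≤ (1 - n / M) * (M * M ^ (i : ℕ) + n * M ^ (i : ℕ)) := by gcongr
      _ = M * M ^ (i : ℕ) - n ^ 2 / M * M ^ (i : ℕ) := by field_simp; ring
      _ ≤ _ := sub_le_self _ (by positivity)
  have h2 : 1 / 2 ≤ hit (fun u v => c u v / ∑ w, c u w) 0 (Fin.last n) n := by
    have h0 : (n : ℝ) / M ≤ 1 := by rw [div_le_one (by linarith)]; nlinarith
    refine le_trans ?_ (single_le_sum (a := id) (fun γ _ => prod_nonneg fun i _ =>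
      (div_pos (c0 _ _) (r0 _)).le) (by simp))
    refine le_trans ?_ (prod_le_prod (fun i _ => sub_nonneg.mpr h0) fun i _ => h1 i)
    have := one_add_mul_le_pow (a := -(n / M)) (by linarith) n
    have h3 : (n : ℝ) * (n / M) ≤ 1 / 2 := by
      rw [← mul_div_assoc, div_le_iff₀ (by linarith)]; nlinarith
    simp only [prod_const, card_univ, Fintype.card_fin, sub_eq_add_neg]
    linarith
  have h3 : Real.log (1 / ((∑ w, c 0 w) / ∑ u, ∑ v, c u v)) ≤ 6 * k ^ 3 := by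
    have a1 : ∑ u, ∑ v, c u v ≤ M ^ (n + 1) := by
      have : ∀ u v, c u v ≤ M ^ n := fun u v => by
        rw [hc]; refine pow_le_pow_right₀ M2 ?_
        have := u.2; have := v.2; split_ifs <;> omega
      refine (sum_le_sum fun u _ => sum_le_sum fun v _ => this u v).trans ?_
      simp only [sum_const, card_univ, Fintype.card_fin, nsmul_eq_mul, pow_succ', ← mul_assoc]
      gcongr
      push_cast; nlinarith [sq_nonneg (n : ℝ)]
    have a2 : 1 ≤ ∑ w, c 0 w := (c1 0 0).trans (single_le_sum (fun w _ => (c0 0 w).le) (mem_univ _))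
    rw [one_div_div]
    refine (Real.log_le_log (div_pos Z0 (r0 0)) ((div_le_self Z0.le a2).trans a1)).trans ?_
    rw [hM, hn, Real.log_pow, Real.log_pow, Real.log_pow]
    have := Real.log_le_sub_one_of_pos (show (0 : ℝ) < k by linarith)
    push_cast
    rw [hn]
    nlinarith [sq_nonneg (k : ℝ)]
  refine lt_of_lt_of_le ?_ h2
  have h4 : max 1 (Real.log (1 / ((∑ w, c 0 w) / ∑ u, ∑ v, c u v))) ≤ 6 * k ^ 3 :=
    max_le (by nlinarith [sq_nonneg (k : ℝ)]) h3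
  have h5 := Real.sq_sqrt (zero_le_one.trans (le_max_left 1
    (Real.log (1 / ((∑ w, c 0 w) / ∑ u, ∑ v, c u v)))))
  generalize √_ = s at *
  rw [div_mul_eq_mul_div, div_lt_iff₀ (by linarith)]
  refine lt_of_pow_lt_pow_left₀ 2 (by positivity) ?_
  have h6 : C ^ 2 * s ^ 2 ≤ k / 100 * (6 * k ^ 3) := by gcongr <;> linarith
  have h7 : (k : ℝ) ^ 2 * (3 / 4) ≤ n := by nlinarith
  have h8 : ((k : ℝ) ^ 2 * (3 / 4)) ^ 2 ≤ n ^ 2 := by gcongr
  nlinarith [pow_pos (show (0 : ℝ) < k by linarith) 4]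

end Pool.Agent.Results.MP_e25d14_pr.Counter
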